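import Mathlib
import Pool.Agent.V11198.HadMain

/-!
# The symplectic Hadamard question

A simply connected symplectic manifold with a compatible almost complex structure whose metric is
complete and nonpositively curved is symplectomorphic to the standard `ℝ²ⁿ`.

Idea of the proof. Let `f` be the exponential map at a point, seen on a Euclidean space by
unitary coordinates, `G = f^* g_J` and `σ = f^* ω`. The Gauss lemma and nonpositive curvature give
`G_x(x, w) = ⟪x, w⟫` and that `t ↦ G_{tx}(w, w)` is nondecreasing. Hence `σ₁ = (1/2) L_X σ`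
(`X` the radial field) satisfies `σ₁(v, J v) ≥ G(v, v)`, and two applications of the method of
Moser, with a priori bounds for the flows, show that `σ`, `σ₁` and the constant form `σ_0` are
pairwise isomorphic.
-/

set_option maxSynthPendingDepth 3

open scoped ContDiff Manifold Topology
open Set Filter

noncomputable section

namespace Pool.Agent.Results.MP_f72ae4_gt.SymplecticHadamard

/-! ### Definitions

`M` is a manifold modelled on the vector space `E`. Everything is expressed in the preferred charts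
`extChartAt 𝓘(ℝ, E) q`, `q : M`, of `M`. -/

section defs

variable {E : Type} [NormedAddCommGroup E] [NormedSpace ℝ E]
  {M : Type*} [TopologicalSpace M] [ChartedSpace E M]

variable (E M) in
/-- Fields of functions of two tangent vectors. -/
abbrev PairField : Type _ :=
  ∀ x : M, TangentSpace 𝓘(ℝ, E) x → TangentSpace 𝓘(ℝ, E) x → ℝ

variable (E M) in
/-- Fields of self-maps of the tangent spaces of `M`. -/
abbrev EndomField : Type _ :=
  ∀ x : M, TangentSpace 𝓘(ℝ, E) x → TangentSpace 𝓘(ℝ, E) x

/-- The derivative at `y` of the inverse of the chart at `q`, applied to `u`. -/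
def coordVec (q : M) (y u : E) : TangentSpace 𝓘(ℝ, E) ((extChartAt 𝓘(ℝ, E) q).symm y) :=
  mfderiv 𝓘(ℝ, E) 𝓘(ℝ, E) (extChartAt 𝓘(ℝ, E) q).symm y u

/-- The expression of `B` in the chart at `q`. -/
def coordForm (B : PairField E M) (q : M) (y u v : E) : ℝ :=
  B ((extChartAt 𝓘(ℝ, E) q).symm y) (coordVec q y u) (coordVec q y v)

/-- The expression of `J` in the chart at `q`. -/
def coordEnd (J : EndomField E M) (q : M) (y u : E) : E :=
  mfderiv 𝓘(ℝ, E) 𝓘(ℝ, E) (extChartAt 𝓘(ℝ, E) q) ((extChartAt 𝓘(ℝ, E) q).symm y)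
    (J ((extChartAt 𝓘(ℝ, E) q).symm y) (coordVec q y u))

/-- The derivative of `G(u, v)` at `y` in the direction `a`. -/
def dirD (G : E → E → E → ℝ) (y a u v : E) : ℝ := fderiv ℝ (fun z => G z u v) y a

/-- `B` is a smooth field of bilinear forms. -/
structure IsSmoothForm (B : PairField E M) : Prop where
  add_left : ∀ (x : M) (u v w : TangentSpace 𝓘(ℝ, E) x), B x (u + v) w = B x u w + B x v w
  smul_left : ∀ (x : M) (c : ℝ) (u w : TangentSpace 𝓘(ℝ, E) x), B x (c • u) w = c * B x u w
  add_right : ∀ (x : M) (w u v : TangentSpace 𝓘(ℝ, E) x), B x w (u + v) = B x w u + B x w v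
  smul_right : ∀ (x : M) (c : ℝ) (w u : TangentSpace 𝓘(ℝ, E) x), B x w (c • u) = c * B x w u
  smooth : ∀ (q : M) (u v : E), ContDiffOn ℝ ∞ (fun y => coordForm B q y u v)
    (extChartAt 𝓘(ℝ, E) q).target

/-- `om` is a symplectic form: smooth, alternating, nondegenerate and closed. -/
structure IsSymplectic (om : PairField E M) : Prop where
  form : IsSmoothForm om
  alt : ∀ (x : M) (u : TangentSpace 𝓘(ℝ, E) x), om x u u = 0
  nondeg : ∀ (x : M) (u : TangentSpace 𝓘(ℝ, E) x), (∀ v, om x u v = 0) → u = 0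
  closed : ∀ q : M, ∀ y ∈ (extChartAt 𝓘(ℝ, E) q).target, ∀ u v w : E,
    dirD (coordForm om q) y u v w + dirD (coordForm om q) y v w u +
      dirD (coordForm om q) y w u v = 0

/-- `J` is a smooth almost complex structure compatible with `om`. -/
structure IsCompatible (om : PairField E M) (J : EndomField E M) : Prop where
  add : ∀ (x : M) (u v : TangentSpace 𝓘(ℝ, E) x), J x (u + v) = J x u + J x v
  smul : ∀ (x : M) (c : ℝ) (u : TangentSpace 𝓘(ℝ, E) x), J x (c • u) = c • J x u
  smooth : ∀ (q : M) (u : E), ContDiffOn ℝ ∞ (fun y => coordEnd J q y u)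
    (extChartAt 𝓘(ℝ, E) q).target
  sq : ∀ (x : M) (v : TangentSpace 𝓘(ℝ, E) x), J x (J x v) = -v
  inv : ∀ (x : M) (u v : TangentSpace 𝓘(ℝ, E) x), om x (J x u) (J x v) = om x u v
  pos : ∀ (x : M) (v : TangentSpace 𝓘(ℝ, E) x), v ≠ 0 → 0 < om x v (J x v)

/-- The metric `g_J(u, v) = om(u, J v)`. -/
def metric (om : PairField E M) (J : EndomField E M) : PairField E M :=
  fun x u v => om x u (J x v)

/-- The Christoffel symbol `Γ_y(u, v)` of a metric `G` on a domain of `E`: the vector `z` with
`2 G_y(z, w) = D_u G_y(v, w) + D_v G_y(u, w) - D_w G_y(u, v)` for all `w`. -/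
def christoffel (G : E → E → E → ℝ) (y u v : E) : E :=
  Classical.epsilon fun z : E => ∀ w : E,
    2 * G y z w = dirD G y u v w + dirD G y v u w - dirD G y w u v

/-- The curvature `R(u, v) w = ∇_u ∇_v w - ∇_v ∇_u w` (for constant `u`, `v`, `w`) of the
connection with Christoffel symbols `Γ`. -/
def curvature (Γ : E → E → E → E) (y u v w : E) : E :=
  fderiv ℝ (fun z => Γ z v w) y u - fderiv ℝ (fun z => Γ z u w) y v +
    Γ y u (Γ y v w) - Γ y v (Γ y u w)

/-- All sectional curvatures of `g` are nonpositive. -/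
def NonposCurv (g : PairField E M) : Prop :=
  ∀ q : M, ∀ y ∈ (extChartAt 𝓘(ℝ, E) q).target, ∀ u v : E,
    coordForm g q y (curvature (christoffel (coordForm g q)) y u v v) u ≤ 0

/-- The expression of the curve `γ` in the chart at `q`. -/
def coordCurve (γ : ℝ → M) (q : M) (t : ℝ) : E := extChartAt 𝓘(ℝ, E) q (γ t)

/-- `γ` is a geodesic of `g`. -/
structure IsGeodesic (g : PairField E M) (γ : ℝ → M) : Prop where
  smooth : ContMDiff 𝓘(ℝ, ℝ) 𝓘(ℝ, E) ∞ γ
  eq : ∀ (q : M) (t : ℝ), γ t ∈ (extChartAt 𝓘(ℝ, E) q).source →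
    deriv (deriv (coordCurve (E := E) γ q)) t =
      -christoffel (coordForm g q) (coordCurve γ q t)
        (deriv (coordCurve γ q) t) (deriv (coordCurve γ q) t)

/-- `g` is complete: for every point `q` and every vector `u` (in the chart at `q`) there is a
geodesic defined on the whole line which starts at `q` with velocity `u`. -/
def CompleteMetric (g : PairField E M) : Prop :=
  ∀ (q : M) (u : E), ∃ γ : ℝ → M, IsGeodesic g γ ∧ γ 0 = q ∧ deriv (coordCurve γ q) 0 = u

/-- The vector space `ℝ²ⁿ`, with coordinates `x_i` (`Sum.inl i`) and `y_i` (`Sum.inr i`). -/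
abbrev R2 (n : ℕ) : Type := EuclideanSpace ℝ (Fin n ⊕ Fin n)

/-- The standard symplectic form `∑ dx_i ∧ dy_i`. -/
def omStd (n : ℕ) (a b : R2 n) : ℝ :=
  ∑ i : Fin n, (a (Sum.inl i) * b (Sum.inr i) - a (Sum.inr i) * b (Sum.inl i))

section maps

variable {V : Type} [NormedAddCommGroup V] [NormedSpace ℝ V]

/-- `F` is a diffeomorphism of `M` onto the vector space `V`. -/
def IsDiffeoOnto (F : M → V) : Prop :=
  ContMDiff 𝓘(ℝ, E) 𝓘(ℝ, V) ∞ F ∧ ∃ G : V → M, ContMDiff 𝓘(ℝ, V) 𝓘(ℝ, E) ∞ G ∧
    (∀ x, G (F x) = x) ∧ ∀ y, F (G y) = y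

/-- The derivative of `F` at `x`, applied to `u`. -/
def derivMap (F : M → V) (x : M) (u : TangentSpace 𝓘(ℝ, E) x) : V :=
  mfderiv 𝓘(ℝ, E) 𝓘(ℝ, V) F x u

end maps

/-- `(M, om)` is symplectomorphic to the standard `ℝ²ⁿ`. -/
def SymplectoStd (n : ℕ) (om : PairField E M) : Prop :=
  ∃ F : M → R2 n, IsDiffeoOnto (E := E) F ∧ ∀ (x : M) (u v : TangentSpace 𝓘(ℝ, E) x),
    omStd n (derivMap F x u) (derivMap F x v) = om x u v

end defs

/-! ### Comparison with the definitions of the proof files -/

section bridge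

open Pool.Agent.V11198 hiding christoffel IsGeodesic

variable {E : Type} [NormedAddCommGroup E] [NormedSpace ℝ E] [FiniteDimensional ℝ E]
  {M : Type*} [TopologicalSpace M] [ChartedSpace E M] [IsManifold 𝓘(ℝ, E) ∞ M]

/-- a bilinear function as a continuous bilinear map -/
def mkB (b : E → E → ℝ) (h1 : ∀ u v w, b (u + v) w = b u w + b v w)
    (h2 : ∀ (c : ℝ) u w, b (c • u) w = c * b u w) (h3 : ∀ w u v, b w (u + v) = b w u + b w v)
    (h4 : ∀ (c : ℝ) w u, b w (c • u) = c * b w u) : E →L[ℝ] E →L[ℝ] ℝ :=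
  LinearMap.toContinuousLinearMap
    (((LinearMap.toContinuousLinearMap : (E →ₗ[ℝ] ℝ) ≃ₗ[ℝ] (E →L[ℝ] ℝ)) :
      (E →ₗ[ℝ] ℝ) →ₗ[ℝ] (E →L[ℝ] ℝ)).comp (LinearMap.mk₂ ℝ b h1 h2 h3 h4))

/-- the field of continuous bilinear maps -/
def mkForm (B : PairField E M) (h : IsSmoothForm B) : BField E M :=
  fun x => mkB (E := E) (B x) (h.add_left x) (h.smul_left x) (h.add_right x) (h.smul_right x)

omit [IsManifold 𝓘(ℝ, E) ∞ M] in
lemma mkForm_apply (B : PairField E M) (h : IsSmoothForm B) (x : M)
    (u v : TangentSpace 𝓘(ℝ, E) x) : mkForm B h x u v = B x u v := rfl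

/-- the field of continuous endomorphisms -/
def mkEnd {om : PairField E M} {J : EndomField E M} (h : IsCompatible om J) : EndField E M :=
  fun x => (LinearMap.toContinuousLinearMap (𝕜 := ℝ) (E := E) (F' := E)
    { toFun := J x, map_add' := h.add x, map_smul' := h.smul x } : E →L[ℝ] E)

omit [IsManifold 𝓘(ℝ, E) ∞ M] in
lemma mkEnd_apply {om : PairField E M} {J : EndomField E M} (h : IsCompatible om J) (x : M)
    (v : TangentSpace 𝓘(ℝ, E) x) : mkEnd h x v = J x v := rfl

omit [FiniteDimensional ℝ E] in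
lemma dirD_eq {G : E → E →L[ℝ] E →L[ℝ] ℝ} {y : E} (h : DifferentiableAt ℝ G y) (a u v : E) :
    dirD (fun z u v => G z u v) y a u v = fderiv ℝ G y a u v := fderiv_form_apply h a u v

omit [IsManifold 𝓘(ℝ, E) ∞ M] in
lemma smooth_old {B : PairField E M} (h : IsSmoothForm B) (q : M) :
    ContDiffOn ℝ ∞ (inChart (mkForm B h) q) (extChartAt 𝓘(ℝ, E) q).target := by
  rw [contDiffOn_clm_apply]
  intro u
  rw [contDiffOn_clm_apply]
  intro v
  exact h.smooth q u v

omit [IsManifold 𝓘(ℝ, E) ∞ M] in
lemma symplectic_old {om : PairField E M} (h : IsSymplectic om) :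
    IsSymplecticForm (mkForm om h.form) := by
  refine ⟨smooth_old h.form, h.alt, h.nondeg, fun q y hy u v w => ?_⟩
  have hd : DifferentiableAt ℝ (inChart (mkForm om h.form) q) y :=
    ((smooth_old h.form q).contDiffAt ((isOpen_extChartAt_target q).mem_nhds hy)).differentiableAt
      (by simp)
  have h1 := h.closed q y hy u v w
  have h2 : ∀ a b c : E, dirD (coordForm om q) y a b c =
      fderiv ℝ (inChart (mkForm om h.form) q) y a b c := fun a b c => dirD_eq hd a b c
  rw [h2, h2, h2] at h1
  exact h1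

omit [IsManifold 𝓘(ℝ, E) ∞ M] in
lemma compatible_old {om : PairField E M} (h : IsSymplectic om) {J : EndomField E M}
    (hJ : IsCompatible om J) : IsCompatibleJ (mkForm om h.form) (mkEnd hJ) := by
  refine ⟨fun q => ?_, hJ.sq, hJ.inv, hJ.pos⟩
  rw [contDiffOn_clm_apply]
  intro u
  exact hJ.smooth q u

/-- Koszul: the Christoffel symbols agree where the metric is positive definite. -/
lemma christoffel_eq {G : E → E →L[ℝ] E →L[ℝ] ℝ} {y : E} (hd : DifferentiableAt ℝ G y)
    (hp : ∀ u, u ≠ 0 → 0 < G y u u) (u v : E) :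
    christoffel (fun z u v => G z u v) y u v = Pool.Agent.V11198.christoffel G y u v := by
  have hkey : ∀ w, G y (conn G y u v) w =
      1 / 2 * (fderiv ℝ G y u v w + fderiv ℝ G y v u w - fderiv ℝ G y w u v) := by
    intro w
    have : conn G y u v = (G y).inverse (koszul G y u v) := rfl
    rw [this, apply_inverse (G y) hp, koszul_apply]
  have hex : ∃ z : E, ∀ w : E, 2 * (fun z u v => G z u v) y z w =
      dirD (fun z u v => G z u v) y u v w + dirD (fun z u v => G z u v) y v u w -
        dirD (fun z u v => G z u v) y w u v := by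
    refine ⟨conn G y u v, fun w => ?_⟩
    rw [dirD_eq hd, dirD_eq hd, dirD_eq hd]
    simp only
    rw [hkey]
    ring
  have hspec := Classical.epsilon_spec hex
  rw [← conn_apply]
  have h1 : ∀ w, G y (christoffel (fun z u v => G z u v) y u v - conn G y u v) w = 0 := by
    intro w
    have h2 := hspec w
    rw [dirD_eq hd, dirD_eq hd, dirD_eq hd] at h2
    have h3 : 2 * G y (christoffel (fun z u v => G z u v) y u v) w =
        fderiv ℝ G y u v w + fderiv ℝ G y v u w - fderiv ℝ G y w u v := h2
    rw [map_sub, sub_apply, hkey]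
    linarith
  by_contra hne
  have h4 := hp _ (sub_ne_zero.2 hne)
  rw [h1] at h4
  exact lt_irrefl _ h4

variable {om : PairField E M} {J : EndomField E M}

omit [IsManifold 𝓘(ℝ, E) ∞ M] in
lemma coord_metric (h : IsSymplectic om) (hJ : IsCompatible om J) (q : M) :
    coordForm (metric om J) q =
      fun y u v => inChart (gMetric (mkForm om h.form) (mkEnd hJ)) q y u v := rfl

lemma metric_facts (h : IsSymplectic om) (hJ : IsCompatible om J) {q : M} {y : E}
    (hy : y ∈ (extChartAt 𝓘(ℝ, E) q).target) :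
    DifferentiableAt ℝ (inChart (gMetric (mkForm om h.form) (mkEnd hJ)) q) y ∧
      ∀ u, u ≠ 0 → 0 < inChart (gMetric (mkForm om h.form) (mkEnd hJ)) q y u u := by
  have hω := symplectic_old h
  have hJ' := compatible_old h hJ
  constructor
  · have hs : ContDiffOn ℝ ∞ (inChart (gMetric (mkForm om h.form) (mkEnd hJ)) q)
        (extChartAt 𝓘(ℝ, E) q).target := by
      rw [contDiffOn_clm_apply]
      intro u
      rw [contDiffOn_clm_apply]
      intro v
      have h1 : ContDiffOn ℝ ∞
          (fun y => inChart (mkForm om h.form) q y u (endInChart (mkEnd hJ) q y v))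
          (extChartAt 𝓘(ℝ, E) q).target :=
        ((hω.smooth q).clm_apply contDiffOn_const).clm_apply ((hJ'.smooth q).clm_apply
          contDiffOn_const)
      exact h1.congr fun y hy => inChart_gMetric _ _ hy u v
    exact (hs.contDiffAt ((isOpen_extChartAt_target q).mem_nhds hy)).differentiableAt (by simp)
  · intro u hu
    rw [inChart_gMetric _ _ hy]
    exact end_pos hJ' hy u hu

lemma christoffel_metric (h : IsSymplectic om) (hJ : IsCompatible om J) {q : M} {y : E}
    (hy : y ∈ (extChartAt 𝓘(ℝ, E) q).target) (u v : E) :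
    christoffel (coordForm (metric om J) q) y u v =
      Pool.Agent.V11198.christoffel (inChart (gMetric (mkForm om h.form) (mkEnd hJ)) q) y u v := by
  obtain ⟨h1, h2⟩ := metric_facts h hJ hy
  rw [coord_metric h hJ]
  exact christoffel_eq h1 h2 u v

lemma curved_old (h : IsSymplectic om) (hJ : IsCompatible om J) (hK : NonposCurv (metric om J)) :
    NonposCurved (gMetric (mkForm om h.form) (mkEnd hJ)) := by
  intro q y hy u v
  have h1 := hK q y hy u v
  have h2 : ∀ a b c : E, fderiv ℝ (fun z => christoffel (coordForm (metric om J) q) z a b) y c =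
      fderiv ℝ (fun z => Pool.Agent.V11198.christoffel
        (inChart (gMetric (mkForm om h.form) (mkEnd hJ)) q) z a b) y c := by
    intro a b c
    have h3 : (fun z => christoffel (coordForm (metric om J) q) z a b) =ᶠ[𝓝 y]
        fun z => Pool.Agent.V11198.christoffel
          (inChart (gMetric (mkForm om h.form) (mkEnd hJ)) q) z a b := by
      filter_upwards [(isOpen_extChartAt_target q).mem_nhds hy] with z hz
      exact christoffel_metric h hJ hz a b
    rw [h3.fderiv_eq]
  have h4 : curvature (christoffel (coordForm (metric om J) q)) y u v v =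
      riemannCurv (Pool.Agent.V11198.christoffel
        (inChart (gMetric (mkForm om h.form) (mkEnd hJ)) q)) y u v v := by
    simp only [curvature, riemannCurv, h2, christoffel_metric h hJ hy]
  rw [h4] at h1
  exact h1

lemma complete_old (h : IsSymplectic om) (hJ : IsCompatible om J)
    (hc : CompleteMetric (metric om J)) :
    GeodesicallyComplete (gMetric (mkForm om h.form) (mkEnd hJ)) := by
  intro x v
  obtain ⟨γ, h1, h2, h3⟩ := hc x v
  refine ⟨γ, ⟨h1.smooth, fun q t ht => ?_⟩, ?_⟩
  · have h4 := h1.eq q t (by rwa [extChartAt_source])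
    have h5 : coordCurve γ q = extChartAt 𝓘(ℝ, E) q ∘ γ := rfl
    rw [h5] at h4
    rw [h4]
    simp only [Function.comp_apply]
    rw [christoffel_metric h hJ (mem_target ht)]
  · have h6 := velocity h1.smooth 0
    have h7 : ∀ (x' : M) (w : E), γ 0 = x' → w = deriv (extChartAt 𝓘(ℝ, E) x' ∘ γ) 0 →
        (⟨γ 0, (deriv (extChartAt 𝓘(ℝ, E) (γ 0) ∘ γ) 0 : E)⟩ : TangentBundle 𝓘(ℝ, E) M) =
          ⟨x', w⟩ := by
      rintro _ w rfl rfl
      rfl
    have h8 := h7 x v h2 h3.symm
    rw [← h8]
    have h9 : ∀ w w' : E, w = w' → (⟨γ 0, w⟩ : TangentBundle 𝓘(ℝ, E) M) = ⟨γ 0, w'⟩ := by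
      rintro w _ rfl
      rfl
    exact h9 _ _ h6

end bridge

/-- **The symplectic Hadamard theorem.** A simply connected symplectic manifold of dimension `2n`
which admits a compatible almost complex structure whose metric is complete and has nonpositive
sectional curvature is symplectomorphic to the standard `ℝ²ⁿ`. -/
theorem result {n : ℕ} {E : Type} [NormedAddCommGroup E] [NormedSpace ℝ E]
    [FiniteDimensional ℝ E] (hn : Module.finrank ℝ E = 2 * n)
    {M : Type*} [TopologicalSpace M] [ChartedSpace E M] [IsManifold 𝓘(ℝ, E) ∞ M] [T2Space M]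
    [SimplyConnectedSpace M] (om : PairField E M) (hom : IsSymplectic om)
    (J : EndomField E M) (hJ : IsCompatible om J) (hcomplete : CompleteMetric (metric om J))
    (hcurv : NonposCurv (metric om J)) : SymplectoStd n om := by
  obtain ⟨F, hF⟩ := Pool.Agent.V11198.symplectic_hadamard hn (symplectic_old hom)
    (compatible_old hom hJ) (complete_old hom hJ hcomplete) (curved_old hom hJ hcurv)
  exact ⟨F, ⟨F.contMDiff, F.symm, F.symm.contMDiff, F.symm_apply_apply, F.apply_symm_apply⟩,
    fun x u v => (hF x u v).symm⟩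

end Pool.Agent.Results.MP_f72ae4_gt.SymplecticHadamard
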